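import Mathlib

set_option autoImplicit false

/-! A small verified RUP (LRAT-style) checker, run by `decide +kernel`.
Literal `2 * x` says variable `x` is true, literal `2 * x + 1` says it is false. -/

namespace Pool.Agent.Lib.helper91.Rup

def lit (v : ℕ → Prop) (l : ℕ) : Prop := if l % 2 = 0 then v (l / 2) else ¬ v (l / 2)

def Sat (v : ℕ → Prop) (c : List ℕ) : Prop := ∃ l ∈ c, lit v l

def neg (l : ℕ) : ℕ := cond (Nat.beq (l % 2) 0) (l + 1) (l - 1)

def mask : List ℕ → ℕ
  | [] => 0
  | l :: c => Nat.lor (mask c) (Nat.shiftLeft 1 l)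

def tb (m x : ℕ) : Bool := Nat.beq (Nat.land 1 (Nat.shiftRight m x)) 1

def unitOk (m u : ℕ) : List ℕ → Bool
  | [] => true
  | x :: c => (Nat.beq x u || tb m x) && unitOk m u c

def allFalse (m : ℕ) : List ℕ → Bool
  | [] => true
  | x :: c => tb m x && allFalse m c

/-- Hints: `h₁, u₁, h₂, u₂, …, h_last`; clause `h_k` propagates the literal `u_k`. -/
def rup (db : ℕ → List ℕ) (i : ℕ) : List ℕ → ℕ → Bool
  | [], _ => false
  | [h], m => Nat.blt h i && allFalse m (db h)
  | h :: u :: rest, m =>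
      Nat.blt h i && unitOk m u (db h) && rup db i rest (Nat.lor m (Nat.shiftLeft 1 (neg u)))

theorem tb_iff (m x : ℕ) : tb m x = true ↔ m.testBit x = true := by
  unfold tb
  rw [Nat.beq_eq]
  change 1 &&& (m >>> x) = 1 ↔ _
  rw [Nat.testBit, Nat.one_and_eq_mod_two]
  rcases Nat.mod_two_eq_zero_or_one (m >>> x) with h | h <;> simp [h]

theorem testBit_add (m l x : ℕ) :
    (Nat.lor m (Nat.shiftLeft 1 l)).testBit x = true ↔ m.testBit x = true ∨ x = l := by
  change (m ||| (1 <<< l)).testBit x = true ↔ _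
  rw [Nat.testBit_or, Nat.one_shiftLeft, Nat.testBit_two_pow, Bool.or_eq_true, decide_eq_true_iff]
  exact or_congr Iff.rfl eq_comm

theorem lit_neg (v : ℕ → Prop) (l : ℕ) (h : lit v l) : ¬ lit v (neg l) := by
  unfold lit neg at *
  rcases Nat.mod_two_eq_zero_or_one l with h0 | h0
  · have e1 : (l + 1) % 2 = 1 := by omega
    have e2 : (l + 1) / 2 = l / 2 := by omega
    simp only [h0, Nat.beq_refl, cond_true, e1, e2] at h ⊢
    simpa using h
  · have e1 : (l - 1) % 2 = 0 := by omega
    have e2 : (l - 1) / 2 = l / 2 := by omega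
    have e3 : Nat.beq 1 0 = false := rfl
    simp only [h0, e3, cond_false, e1, e2] at h ⊢
    simpa using h

theorem unitOk_sound (v : ℕ → Prop) (m u : ℕ) (hm : ∀ l, m.testBit l = true → ¬ lit v l) :
    ∀ c, unitOk m u c = true → Sat v c → lit v u
  | [], _, ⟨_, hl, _⟩ => by simp at hl
  | x :: c, h, ⟨l, hl, hv⟩ => by
    simp only [unitOk, Bool.and_eq_true, Bool.or_eq_true, Nat.beq_eq, tb_iff] at h
    rcases List.mem_cons.1 hl with rfl | hl
    · rcases h.1 with rfl | h1
      · exact hv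
      · exact absurd hv (hm _ h1)
    · exact unitOk_sound v m u hm c h.2 ⟨l, hl, hv⟩

theorem allFalse_sound (v : ℕ → Prop) (m : ℕ) (hm : ∀ l, m.testBit l = true → ¬ lit v l) :
    ∀ c, allFalse m c = true → ¬ Sat v c
  | [], _, ⟨_, hl, _⟩ => by simp at hl
  | x :: c, h, ⟨l, hl, hv⟩ => by
    simp only [allFalse, Bool.and_eq_true, tb_iff] at h
    rcases List.mem_cons.1 hl with rfl | hl
    · exact absurd hv (hm _ h.1)
    · exact allFalse_sound v m hm c h.2 ⟨l, hl, hv⟩

theorem rup_sound (v : ℕ → Prop) (db : ℕ → List ℕ) (i : ℕ) (hdb : ∀ h < i, Sat v (db h)) :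
    ∀ (hs : List ℕ) (m : ℕ), (∀ l, m.testBit l = true → ¬ lit v l) → rup db i hs m = true → False
  | [], _, _, h => by simp [rup] at h
  | [h], m, hm, hr => by
    simp only [rup, Bool.and_eq_true, Nat.blt_eq] at hr
    exact allFalse_sound v m hm _ hr.2 (hdb h hr.1)
  | h :: u :: rest, m, hm, hr => by
    simp only [rup, Bool.and_eq_true, Nat.blt_eq] at hr
    have hu := unitOk_sound v m u hm _ hr.1.2 (hdb h hr.1.1)
    refine rup_sound v db i hdb rest _ (fun l hl => ?_) hr.2
    rcases (testBit_add _ _ _).1 hl with h1 | rfl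
    · exact hm l h1
    · exact lit_neg v u hu

theorem mask_sound (v : ℕ → Prop) : ∀ c, ¬ Sat v c → ∀ l, (mask c).testBit l = true → ¬ lit v l
  | [], _, l, hl => by simp [mask] at hl
  | x :: c, h, l, hl => by
    rcases (testBit_add _ _ _).1 hl with h1 | rfl
    · exact mask_sound v c (fun ⟨y, hy, hv⟩ => h ⟨y, List.mem_cons_of_mem _ hy, hv⟩) l h1
    · exact fun hv => h ⟨l, List.mem_cons_self, hv⟩

/-- Static storage for clauses and hints. -/
inductive Tr
  | leaf (c h : List ℕ) : Tr
  | node (l r : Tr) : Tr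

def Tr.cl : Tr → ℕ → List ℕ
  | leaf c _, _ => c
  | node l r, i => cond (Nat.beq (i % 2) 0) (l.cl (i / 2)) (r.cl (i / 2))

def Tr.hi : Tr → ℕ → List ℕ
  | leaf _ h, _ => h
  | node l r, i => cond (Nat.beq (i % 2) 0) (l.hi (i / 2)) (r.hi (i / 2))

def step (core : List ℕ → List ℕ → Bool) (nc : ℕ) (t : Tr) (i : ℕ) : Bool :=
  cond (Nat.blt i nc) (core (t.cl i) (t.hi i)) (rup t.cl i (t.hi i) (mask (t.cl i)))

def checkRange (core : List ℕ → List ℕ → Bool) (nc : ℕ) (t : Tr) (lo : ℕ) : ℕ → Bool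
  | 0 => true
  | n + 1 => step core nc t (lo + n) && checkRange core nc t lo n

theorem checkRange_spec (core : List ℕ → List ℕ → Bool) (nc : ℕ) (t : Tr) (lo : ℕ) :
    ∀ n, checkRange core nc t lo n = true → ∀ i, lo ≤ i → i < lo + n → step core nc t i = true
  | 0, _, i, h1, h2 => by omega
  | n + 1, h, i, h1, h2 => by
    simp only [checkRange, Bool.and_eq_true] at h
    rcases Nat.lt_or_ge i (lo + n) with h3 | h3
    · exact checkRange_spec core nc t lo n h.2 i h1 h3
    · have : i = lo + n := by omega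
      rw [this]; exact h.1

theorem sound (v : ℕ → Prop) (core : List ℕ → List ℕ → Bool)
    (hcore : ∀ c h, core c h = true → Sat v c) (nc : ℕ) (t : Tr) (N : ℕ)
    (h : ∀ i < N, step core nc t i = true) : ∀ i < N, Sat v (t.cl i) := by
  intro i
  induction i using Nat.strong_induction_on with
  | _ i ih =>
    intro hi
    have hs := h i hi
    unfold step at hs
    cases hb : Nat.blt i nc with
    | true => rw [hb, cond_true] at hs; exact hcore _ _ hs
    | false =>
      rw [hb, cond_false] at hs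
      by_contra hn
      exact rup_sound v t.cl i (fun k hk => ih k hk (by omega)) _ _ (mask_sound v _ hn) hs

theorem refute (v : ℕ → Prop) (core : List ℕ → List ℕ → Bool)
    (hcore : ∀ c h, core c h = true → Sat v c) (nc : ℕ) (t : Tr) (N : ℕ)
    (h : ∀ i < N + 1, step core nc t i = true) (hN : t.cl N = []) : False := by
  obtain ⟨l, hl, _⟩ := sound v core hcore nc t (N + 1) h N (Nat.lt_succ_self N)
  rw [hN] at hl
  simp at hl

end Pool.Agent.Lib.helper91.Rup
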